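import Pool.Agent.Helper31.BQ.Stmts2

set_option autoImplicit false

namespace Pool.Agent.Helper17.BQ

open Filter Topology
open Pool.Agent.Helper31.BQ

theorem dg_pi {H : Type} [NormedAddCommGroup H] [InnerProductSpace ℝ H] {k : ℕ}
    (T : H →L[ℝ] H) (hT : IsCompactOperator T) :
    IsCompactOperator (ContinuousLinearMap.pi (fun g : GG k =>
      T.comp (ContinuousLinearMap.proj g : (GG k → H) →L[ℝ] H)) :
      (GG k → H) →L[ℝ] (GG k → H)) := by
  obtain ⟨K, hK, h⟩ := hT
  refine ⟨Set.pi Set.univ fun _ => K, isCompact_univ_pi fun _ => hK, ?_⟩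
  have h1 : ∀ g : GG k, ∀ᶠ y : GG k → H in 𝓝 0, T (y g) ∈ K := fun g =>
    ((continuous_apply g).tendsto' (0 : GG k → H) 0 rfl).eventually h
  filter_upwards [eventually_all.2 h1] with y hy
  intro g _
  exact hy g

theorem dg_fin {H : Type} [NormedAddCommGroup H] [InnerProductSpace ℝ H]
    (T : H →L[ℝ] H) (hT : FiniteDimensional ℝ (LinearMap.range (T : H →ₗ[ℝ] H))) :
    IsCompactOperator T := by
  have h1 : IsCompactOperator (T.codRestrict (LinearMap.range (T : H →ₗ[ℝ] H))
      (fun x => LinearMap.mem_range_self (T : H →ₗ[ℝ] H) x)) := by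
    have h2 : ProperSpace (LinearMap.range (T : H →ₗ[ℝ] H)) :=
      FiniteDimensional.proper ℝ (LinearMap.range (T : H →ₗ[ℝ] H))
    exact isCompactOperator_of_locallyCompactSpace_dom _
  exact h1.clm_comp (LinearMap.range (T : H →ₗ[ℝ] H)).subtypeL

theorem dg_ex {H : Type} [NormedAddCommGroup H] [InnerProductSpace ℝ H]
    (T : ℕ → H →L[ℝ] H) (c : ℝ) (hc0 : 0 ≤ c) (hc : ∀ k, ‖T k‖ ≤ c) :
    ∃ D : WW H →L[ℝ] WW H, (∀ x k g, cd (D x) k g = T k (cd x k g)) ∧ ‖D‖ ≤ c := by
  have hb : ∀ (x : WW H) (k : ℕ), ‖(fun g => T k ((x : ∀ k, GG k → H) k g) : GG k → H)‖ ≤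
      c * ‖(x : ∀ k, GG k → H) k‖ := by
    intro x k
    rw [pi_norm_le_iff_of_nonneg (by positivity)]
    intro g
    exact ((T k).le_opNorm _).trans (mul_le_mul (hc k) (norm_le_pi_norm _ g) (norm_nonneg _) hc0)
  have hm : ∀ x : WW H, Memℓp (fun k => (fun g => T k ((x : ∀ k, GG k → H) k g) : GG k → H)) 2 := by
    intro x
    refine Memℓp.mono ((lp.memℓp x).norm.const_smul c) fun k => ?_
    exact hb x k
  refine ⟨LinearMap.mkContinuous
    { toFun := fun x => (⟨fun k => (fun g => T k ((x : ∀ k, GG k → H) k g) : GG k → H), hm x⟩ :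
        WW H)
      map_add' := fun x y => by
        apply Subtype.ext
        funext k g
        exact map_add (T k) _ _
      map_smul' := fun r x => by
        apply Subtype.ext
        funext k g
        exact map_smul (T k) r _ } c (fun x => ?_), fun x k g => rfl, ?_⟩
  · have h1 := lp.norm_mono (p := 2) (by norm_num)
      (x := (⟨fun k => (fun g => T k ((x : ∀ k, GG k → H) k g) : GG k → H), hm x⟩ : WW H))
      (y := c • x) (fun k => by
        rw [lp.coeFn_smul, Pi.smul_apply, norm_smul, Real.norm_of_nonneg hc0]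
        exact hb x k)
    refine h1.trans (le_of_eq ?_)
    rw [norm_smul, Real.norm_of_nonneg hc0]
  · exact LinearMap.mkContinuous_norm_le _ hc0 _

theorem dg_ext {H : Type} [NormedAddCommGroup H] [InnerProductSpace ℝ H] {x y : WW H}
    (h : ∀ k g, cd x k g = cd y k g) : x = y := by
  apply Subtype.ext
  funext k g
  exact h k g

theorem st_DG : ST_DG := by
  intro H _ _ _ T hT
  obtain ⟨D, hD, hD1⟩ := dg_ex T 1 zero_le_one hT
  refine ⟨D, hD, hD1, fun hf ht => ?_⟩
  have hC : ∀ N : ℕ, IsCompactOperator (∑ k ∈ Finset.range N,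
      (lp.singleContinuousLinearMap ℝ (fun k : ℕ => (GG k → H)) 2 k).comp
      ((ContinuousLinearMap.pi (fun g : GG k =>
      (T k).comp (ContinuousLinearMap.proj g : (GG k → H) →L[ℝ] H)) :
      (GG k → H) →L[ℝ] (GG k → H)).comp
      (lp.evalCLM ℝ (fun k : ℕ => (GG k → H)) 2 k)) : WW H →L[ℝ] WW H) := by
    intro N
    have h1 : (∑ k ∈ Finset.range N,
      (lp.singleContinuousLinearMap ℝ (fun k : ℕ => (GG k → H)) 2 k).comp
      ((ContinuousLinearMap.pi (fun g : GG k =>
      (T k).comp (ContinuousLinearMap.proj g : (GG k → H) →L[ℝ] H)) :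
      (GG k → H) →L[ℝ] (GG k → H)).comp
      (lp.evalCLM ℝ (fun k : ℕ => (GG k → H)) 2 k)) : WW H →L[ℝ] WW H) ∈
      compactOperator (RingHom.id ℝ) (WW H) (WW H) := by
      refine Submodule.sum_mem _ fun k _ => ?_
      exact ((dg_pi (T k) (dg_fin _ (hf k))).comp_clm
        (lp.evalCLM ℝ (fun k : ℕ => (GG k → H)) 2 k)).clm_comp
        (lp.singleContinuousLinearMap ℝ (fun k : ℕ => (GG k → H)) 2 k)
    exact h1
  refine isCompactOperator_of_tendsto (l := atTop) (f := D) ?_ (Eventually.of_forall hC)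
  rw [Metric.tendsto_atTop]
  intro ε hε
  obtain ⟨N₀, hN₀⟩ := (Metric.tendsto_atTop.1 ht) (ε / 2) (by positivity)
  refine ⟨N₀, fun N hN => ?_⟩
  have hT' : ∀ k, ‖(if k < N then 0 else T k : H →L[ℝ] H)‖ ≤ ε / 2 := by
    intro k
    by_cases hk : k < N
    · rw [if_pos hk, norm_zero]
      positivity
    · rw [if_neg hk]
      have h2 := hN₀ k (by omega)
      rw [Real.dist_eq, sub_zero, abs_of_nonneg (norm_nonneg _)] at h2
      exact h2.le
  obtain ⟨D', hD', hD2⟩ := dg_ex (fun k => if k < N then 0 else T k) (ε / 2) (by positivity) hT'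
  have he : (∑ k ∈ Finset.range N,
      (lp.singleContinuousLinearMap ℝ (fun k : ℕ => (GG k → H)) 2 k).comp
      ((ContinuousLinearMap.pi (fun g : GG k =>
      (T k).comp (ContinuousLinearMap.proj g : (GG k → H) →L[ℝ] H)) :
      (GG k → H) →L[ℝ] (GG k → H)).comp
      (lp.evalCLM ℝ (fun k : ℕ => (GG k → H)) 2 k)) : WW H →L[ℝ] WW H) = D - D' := by
    refine ContinuousLinearMap.ext fun x => ?_
    rw [sum_apply, sub_apply]
    apply dg_ext
    intro k g
    have e1 : cd (D x - D' x) k g = cd (D x) k g - cd (D' x) k g := rfl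
    rw [e1, hD, hD']
    unfold cd
    rw [lp.coeFn_sum, Finset.sum_apply, Finset.sum_apply]
    by_cases hk : k < N
    · rw [Finset.sum_eq_single k]
      · rw [if_pos hk]
        simp [lp.evalCLM]
      · intro b _ hb
        simp only [ContinuousLinearMap.comp_apply, lp.singleContinuousLinearMap_apply]
        rw [lp.single_apply_ne _ _ _ (Ne.symm hb)]
        rfl
      · intro h
        exact absurd (Finset.mem_range.2 hk) h
    · rw [if_neg hk, Finset.sum_eq_zero, sub_self]
      intro b hb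
      have hb' : b < N := Finset.mem_range.1 hb
      simp only [ContinuousLinearMap.comp_apply, lp.singleContinuousLinearMap_apply]
      rw [lp.single_apply_ne _ _ _ (by omega)]
      rfl
  rw [he, dist_eq_norm, sub_sub_cancel_left, norm_neg]
  linarith

end Pool.Agent.Helper17.BQ
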