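import Pool.Agent.Helper17.BQ.YBcore

set_option autoImplicit false

namespace Pool.Agent.Helper17.BQ

open Filter Topology
open Pool.Agent.Helper31.BQ

universe u

/-- the sequence space -/
abbrev L1 : Type u := lp (fun _ : ULift.{u} ℕ => ℝ) 1

theorem l1_hs (a : L1.{u}) : HasSum (fun i => ‖a i‖) ‖a‖ := by
  have h := lp.hasSum_norm (p := 1) (by simp) a
  simpa using h

section

variable {E : Type u} [NormedAddCommGroup E] [NormedSpace ℝ E]

theorem yb_summable [CompleteSpace E] (z : ℕ → E) (B : ℝ) (hB : ∀ n, ‖z n‖ ≤ B) (a : L1.{u}) :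
    Summable fun i : ULift.{u} ℕ => a i • z i.down := by
  refine Summable.of_norm_bounded (g := fun i => ‖a i‖ * B) ((l1_hs a).summable.mul_right B)
    fun i => ?_
  rw [norm_smul]
  exact mul_le_mul_of_nonneg_left (hB _) (norm_nonneg _)

theorem yb_q [CompleteSpace E] (z : ℕ → E) (B : ℝ) (hB : ∀ n, ‖z n‖ ≤ B) :
    ∃ q : L1.{u} →L[ℝ] E, ∀ a, q a = ∑' i : ULift.{u} ℕ, a i • z i.down := by
  refine ⟨LinearMap.mkContinuous
    { toFun := fun a => ∑' i : ULift.{u} ℕ, a i • z i.down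
      map_add' := fun a b => by
        rw [← (yb_summable z B hB a).tsum_add (yb_summable z B hB b)]
        refine tsum_congr fun i => ?_
        rw [lp.coeFn_add, Pi.add_apply, add_smul]
      map_smul' := fun c a => by
        rw [RingHom.id_apply, ← (yb_summable z B hB a).tsum_const_smul c]
        refine tsum_congr fun i => ?_
        rw [lp.coeFn_smul, Pi.smul_apply, smul_eq_mul, mul_smul] } B (fun a => ?_), fun a => rfl⟩
  have h := tsum_of_norm_bounded (f := fun i : ULift.{u} ℕ => a i • z i.down)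
    ((l1_hs a).mul_left B) (fun i => by
      rw [norm_smul, mul_comm]
      exact mul_le_mul_of_nonneg_right (hB _) (norm_nonneg _))
  exact h

/-- continuity on bounded sets for the coordinatewise convergence -/
theorem yb_conv [CompleteSpace E] (z : ℕ → E) (hz : Tendsto z atTop (𝓝 0)) (B : ℝ)
    (hB : ∀ n, ‖z n‖ ≤ B) (q : L1.{u} →L[ℝ] E)
    (hq : ∀ a, q a = ∑' i : ULift.{u} ℕ, a i • z i.down) (a : ℕ → L1.{u}) (b : L1.{u}) (C : ℝ)
    (ha : ∀ n, ‖a n - b‖ ≤ C) (hab : ∀ i, Tendsto (fun n => a n i) atTop (𝓝 (b i))) :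
    Tendsto (fun n => q (a n)) atTop (𝓝 (q b)) := by
  have hC : 0 ≤ C := (norm_nonneg _).trans (ha 0)
  rw [Metric.tendsto_atTop]
  intro ε hε
  have hε2 : 0 < ε / (2 * (C + 1)) := by positivity
  obtain ⟨N, hN⟩ := (Metric.tendsto_atTop.1 hz) _ hε2
  have hs : Tendsto (fun n => ∑ i ∈ (Finset.range N).map ⟨ULift.up.{u}, ULift.up_injective⟩,
      ‖(a n - b) i‖ * B) atTop (𝓝 0) := by
    have h0 : (0 : ℝ) = ∑ i ∈ (Finset.range N).map ⟨ULift.up.{u}, ULift.up_injective⟩,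
        (0 : ℝ) * B := by simp
    rw [h0]
    refine tendsto_finsetSum _ fun i _ => ?_
    refine Tendsto.mul_const B ?_
    have h1 := ((hab i).sub (tendsto_const_nhds (x := b i))).norm
    rw [sub_self, norm_zero] at h1
    exact h1
  obtain ⟨n₀, hn₀⟩ := (Metric.tendsto_atTop.1 hs) (ε / 2) (by positivity)
  refine ⟨n₀, fun n hn => ?_⟩
  have h2 := hn₀ n hn
  rw [Real.dist_eq, sub_zero] at h2
  have h2' := lt_of_le_of_lt (le_abs_self _) h2
  rw [dist_eq_norm, ← map_sub, hq]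
  have h3 : HasSum (fun i : ULift.{u} ℕ =>
      (if i ∈ (Finset.range N).map ⟨ULift.up.{u}, ULift.up_injective⟩ then
        ‖(a n - b) i‖ * B else 0) + ε / (2 * (C + 1)) * ‖(a n - b) i‖)
      (∑ i ∈ (Finset.range N).map ⟨ULift.up.{u}, ULift.up_injective⟩, ‖(a n - b) i‖ * B +
        ε / (2 * (C + 1)) * ‖a n - b‖) := by
    refine HasSum.add ?_ ((l1_hs (a n - b)).mul_left _)
    have h4 : HasSum (fun i : ULift.{u} ℕ =>
        (if i ∈ (Finset.range N).map ⟨ULift.up.{u}, ULift.up_injective⟩ then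
        ‖(a n - b) i‖ * B else 0))
        (∑ i ∈ (Finset.range N).map ⟨ULift.up.{u}, ULift.up_injective⟩,
        (if i ∈ (Finset.range N).map ⟨ULift.up.{u}, ULift.up_injective⟩ then
        ‖(a n - b) i‖ * B else 0)) :=
      hasSum_sum_of_ne_finset_zero fun i hi => if_neg hi
    have h5 : ∑ i ∈ (Finset.range N).map ⟨ULift.up.{u}, ULift.up_injective⟩,
        (if i ∈ (Finset.range N).map ⟨ULift.up.{u}, ULift.up_injective⟩ then
        ‖(a n - b) i‖ * B else 0) =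
        ∑ i ∈ (Finset.range N).map ⟨ULift.up.{u}, ULift.up_injective⟩, ‖(a n - b) i‖ * B :=
      Finset.sum_congr rfl fun i hi => if_pos hi
    rw [h5] at h4
    exact h4
  have h6 := tsum_of_norm_bounded (f := fun i : ULift.{u} ℕ => (a n - b) i • z i.down) h3
    (fun i => by
      rw [norm_smul]
      have hz0 := norm_nonneg (z i.down)
      have he0 := norm_nonneg ((a n - b) i)
      by_cases hi : i ∈ (Finset.range N).map ⟨ULift.up.{u}, ULift.up_injective⟩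
      · rw [if_pos hi]
        have := mul_le_mul_of_nonneg_left (hB i.down) he0
        have h7 : 0 ≤ ε / (2 * (C + 1)) * ‖(a n - b) i‖ := by positivity
        linarith
      · rw [if_neg hi, zero_add, mul_comm]
        refine mul_le_mul_of_nonneg_right ?_ he0
        have h8 : N ≤ i.down := by
          by_contra hcon
          apply hi
          rw [Finset.mem_map]
          exact ⟨i.down, Finset.mem_range.2 (by omega), rfl⟩
        have h9 := hN i.down h8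
        rw [dist_zero_right] at h9
        exact h9.le)
  refine lt_of_le_of_lt h6 ?_
  have h10 : ε / (2 * (C + 1)) * ‖a n - b‖ ≤ ε / 2 := by
    have h11 := mul_le_mul_of_nonneg_left (ha n) hε2.le
    have h12 : ε / (2 * (C + 1)) * C ≤ ε / 2 := by
      rw [div_mul_eq_mul_div, div_le_div_iff₀ (by positivity) (by norm_num)]
      nlinarith
    linarith
  linarith

/-- compactness -/
theorem yb_cpt [CompleteSpace E] (z : ℕ → E) (hz : Tendsto z atTop (𝓝 0)) (B : ℝ)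
    (hB : ∀ n, ‖z n‖ ≤ B) (q : L1.{u} →L[ℝ] E)
    (hq : ∀ a, q a = ∑' i : ULift.{u} ℕ, a i • z i.down) (a : ℕ → L1.{u}) (C : ℝ)
    (ha : ∀ n, ‖a n‖ ≤ C + 1 / ((n : ℝ) + 1)) :
    ∃ (φ : ℕ → ℕ) (b : L1.{u}), StrictMono φ ∧ ‖b‖ ≤ C ∧
      Tendsto (fun n => q (a (φ n))) atTop (𝓝 (q b)) := by
  have ha1 : ∀ n, ‖a n‖ ≤ C + 1 := by
    intro n
    have h1 : 1 / ((n : ℝ) + 1) ≤ 1 := by
      rw [div_le_one (by positivity)]
      linarith [Nat.cast_nonneg (α := ℝ) n]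
    linarith [ha n]
  obtain ⟨b, -, φ, hφ, hlim⟩ := (isCompact_univ_pi fun _ : ULift.{u} ℕ =>
    (isCompact_Icc : IsCompact (Set.Icc (-(C + 1)) (C + 1)))).tendsto_subseq
    (x := fun n (i : ULift.{u} ℕ) => a n i) (fun n i _ => by
      have h2 := (lp.norm_apply_le_norm one_ne_zero (a n) i).trans (ha1 n)
      rw [Real.norm_eq_abs, abs_le] at h2
      exact h2)
  have hlim' : Tendsto (id fun n => (a (φ n) : ULift.{u} ℕ → ℝ) : ℕ → ULift.{u} ℕ → ℝ)
      atTop (𝓝 b) := hlim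
  have hbd : Bornology.IsBounded (Set.range fun n => a (φ n)) := by
    rw [isBounded_iff_forall_norm_le]
    refine ⟨C + 1, ?_⟩
    rintro _ ⟨n, rfl⟩
    exact ha1 _
  have hmem : Memℓp b 1 := lp.memℓp_of_tendsto (F := fun n => a (φ n)) hbd hlim'
  obtain ⟨b', hb'⟩ : ∃ b' : L1.{u}, (b' : ULift.{u} ℕ → ℝ) = b := ⟨⟨b, hmem⟩, rfl⟩
  rw [← hb'] at hlim hlim'
  have hnorm : ‖b'‖ ≤ C := by
    refine le_of_forall_pos_le_add fun ε hε => ?_
    refine lp.norm_le_of_tendsto (F := fun n => a (φ n)) (l := atTop) ?_ hlim'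
    obtain ⟨N, hN⟩ := exists_nat_gt (1 / ε)
    filter_upwards [eventually_ge_atTop N] with n hn
    have h3 := ha (φ n)
    have h4 : (N : ℝ) ≤ (φ n : ℝ) := by exact_mod_cast hn.trans (hφ.id_le n)
    have h5 : 1 / ((φ n : ℝ) + 1) ≤ ε := by
      rw [div_le_iff₀ (by positivity)]
      rw [div_lt_iff₀ hε] at hN
      nlinarith
    linarith
  refine ⟨φ, b', hφ, hnorm, ?_⟩
  refine yb_conv z hz B hB q hq (fun n => a (φ n)) b' (C + 1 + C) (fun n => ?_) ?_
  · exact (norm_sub_le _ _).trans (add_le_add (ha1 _) hnorm)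
  · rw [tendsto_pi_nhds] at hlim
    exact hlim

/-- functionals -/
theorem yb_d (z : ℕ → E) : ∃ d : ℕ → E →L[ℝ] ℝ,
    ∀ v ∈ closure (Submodule.span ℝ (Set.range z) : Set E), (∀ i, d i v = 0) → v = 0 := by
  have h1 : TopologicalSpace.IsSeparable (Set.range z) := (Set.countable_range z).isSeparable
  have h2 : TopologicalSpace.IsSeparable (closure (Submodule.span ℝ (Set.range z) : Set E)) :=
    (h1.span).closure
  obtain ⟨c, hc, hcl⟩ := h2
  have hne : c.Nonempty := by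
    rw [← closure_nonempty_iff]
    exact ⟨0, hcl (subset_closure (Submodule.zero_mem _))⟩
  obtain ⟨s, hs⟩ := hc.exists_eq_range hne
  have hd : ∀ k, ∃ g : E →L[ℝ] ℝ, ‖g‖ ≤ 1 ∧ g (s k) = ‖s k‖ := fun k => by
    obtain ⟨g, hg1, hg2⟩ := exists_dual_vector'' ℝ (s k)
    exact ⟨g, hg1, hg2⟩
  choose d hd1 hd2 using hd
  refine ⟨d, fun v hv h0 => ?_⟩
  by_contra hcon
  have hv0 : 0 < ‖v‖ := norm_pos_iff.2 hcon
  obtain ⟨w, hw, hvw⟩ := Metric.mem_closure_iff.1 (hcl hv) (‖v‖ / 2) (by positivity)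
  rw [hs] at hw
  obtain ⟨k, rfl⟩ := hw
  rw [dist_eq_norm] at hvw
  have h3 : ‖s k‖ ≤ ‖v - s k‖ := by
    have h4 : d k (s k - v) = ‖s k‖ := by rw [map_sub, hd2, h0, sub_zero]
    have h5 := (d k).le_opNorm (s k - v)
    rw [h4, Real.norm_of_nonneg (norm_nonneg _), norm_sub_rev] at h5
    have h6 := mul_le_mul_of_nonneg_right (hd1 k) (norm_nonneg (v - s k))
    linarith
  have h7 : ‖v‖ ≤ ‖v - s k‖ + ‖s k‖ := by
    have := norm_add_le (v - s k) (s k)
    rwa [sub_add_cancel] at this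
  linarith

end

theorem st_YB : ST_YB.{u} := by
  intro E _ _ _ x hx
  obtain ⟨r, hr⟩ : ∃ r : ℕ → ℝ, r = fun n => Real.sqrt ‖x n‖ + 1 / ((n : ℝ) + 1) := ⟨_, rfl⟩
  have hr0 : ∀ n, 0 < r n := by
    intro n
    rw [hr]
    have : 0 < 1 / ((n : ℝ) + 1) := by positivity
    have h2 := Real.sqrt_nonneg ‖x n‖
    show 0 < Real.sqrt ‖x n‖ + 1 / ((n : ℝ) + 1)
    linarith
  have hsq : Tendsto (fun n => Real.sqrt ‖x n‖) atTop (𝓝 0) := by
    have h1 := (Real.continuous_sqrt.tendsto 0).comp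
      (by simpa using hx.norm : Tendsto (fun n => ‖x n‖) atTop (𝓝 0))
    rw [Real.sqrt_zero] at h1
    exact h1
  have hrt : Tendsto r atTop (𝓝 0) := by
    rw [hr]
    have h1 := hsq.add (tendsto_one_div_add_atTop_nhds_zero_nat (𝕜 := ℝ))
    rw [add_zero] at h1
    exact h1
  obtain ⟨z, hzd⟩ : ∃ z : ℕ → E, z = fun n => (r n)⁻¹ • x n := ⟨_, rfl⟩
  have hrz : ∀ n, r n • z n = x n := by
    intro n
    rw [hzd]
    show r n • (r n)⁻¹ • x n = x n
    rw [smul_smul, mul_inv_cancel₀ (hr0 n).ne', one_smul]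
  have hzn : ∀ n, ‖z n‖ ≤ Real.sqrt ‖x n‖ := by
    intro n
    rw [hzd]
    show ‖(r n)⁻¹ • x n‖ ≤ _
    rw [norm_smul, norm_inv, Real.norm_of_nonneg (hr0 n).le, inv_mul_le_iff₀ (hr0 n)]
    have h1 : Real.sqrt ‖x n‖ * Real.sqrt ‖x n‖ = ‖x n‖ := Real.mul_self_sqrt (norm_nonneg _)
    have h2 : Real.sqrt ‖x n‖ ≤ r n := by
      rw [hr]
      have : 0 < 1 / ((n : ℝ) + 1) := by positivity
      show Real.sqrt ‖x n‖ ≤ Real.sqrt ‖x n‖ + 1 / ((n : ℝ) + 1)
      linarith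
    have h3 := Real.sqrt_nonneg ‖x n‖
    nlinarith
  have hz : Tendsto z atTop (𝓝 0) := squeeze_zero_norm hzn hsq
  obtain ⟨B, hB⟩ : ∃ B, ∀ n, ‖z n‖ ≤ B := by
    obtain ⟨B, hB⟩ := (Metric.isBounded_range_of_tendsto z hz).exists_norm_le
    exact ⟨B, fun n => hB _ (Set.mem_range_self n)⟩
  obtain ⟨q, hq⟩ := yb_q.{u} z B hB
  obtain ⟨d, hd⟩ := yb_d z
  have hcl : IsClosed (LinearMap.ker (q : L1.{u} →ₗ[ℝ] E) : Set L1.{u}) :=
    ContinuousLinearMap.isClosed_ker q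
  have hqr : ∀ a, q a ∈ closure (Submodule.span ℝ (Set.range z) : Set E) := by
    intro a
    rw [hq]
    refine mem_closure_of_tendsto (yb_summable z B hB a).hasSum (Eventually.of_forall fun s => ?_)
    exact Submodule.sum_mem _ fun i _ =>
      Submodule.smul_mem _ _ (Submodule.subset_span (Set.mem_range_self _))
  obtain ⟨j, hj⟩ : ∃ j : (L1.{u} ⧸ LinearMap.ker (q : L1.{u} →ₗ[ℝ] E)) →L[ℝ] E,
      ∀ a, j ((LinearMap.ker (q : L1.{u} →ₗ[ℝ] E)).mkQ a) = q a :=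
    ⟨(LinearMap.ker (q : L1.{u} →ₗ[ℝ] E)).liftQL q le_rfl, fun a => rfl⟩
  have hinj : ∀ y, (∀ i, d i (j y) = 0) → y = 0 := by
    intro y h
    obtain ⟨a, rfl⟩ := (LinearMap.ker (q : L1.{u} →ₗ[ℝ] E)).mkQ_surjective y
    rw [hj] at h
    have h1 := hd _ (hqr a) h
    rw [Submodule.mkQ_apply, Submodule.Quotient.mk_eq_zero]
    exact h1
  have hK : ∀ (x : ℕ → (L1.{u} ⧸ LinearMap.ker (q : L1.{u} →ₗ[ℝ] E))) (C : ℝ),
      (∀ n, ‖x n‖ ≤ C) → ∃ (φ : ℕ → ℕ) (y : (L1.{u} ⧸ LinearMap.ker (q : L1.{u} →ₗ[ℝ] E))),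
      StrictMono φ ∧ ‖y‖ ≤ C ∧ Tendsto (fun n => j (x (φ n))) atTop (𝓝 (j y)) := by
    intro x C hxC
    have h1 : ∀ n, ∃ a : L1.{u}, (LinearMap.ker (q : L1.{u} →ₗ[ℝ] E)).mkQ a = x n ∧
        ‖a‖ ≤ C + 1 / ((n : ℝ) + 1) := by
      intro n
      obtain ⟨a, ha1, ha2⟩ := Submodule.Quotient.norm_mk_lt (x n)
        (show (0 : ℝ) < 1 / ((n : ℝ) + 1) by positivity)
      exact ⟨a, ha1, by linarith [hxC n]⟩
    choose a ha1 ha2 using h1
    obtain ⟨φ, b, hφ, hb, hlim⟩ := yb_cpt z hz B hB q hq a C ha2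
    refine ⟨φ, (LinearMap.ker (q : L1.{u} →ₗ[ℝ] E)).mkQ b, hφ,
      (Submodule.Quotient.norm_mk_le _ b).trans hb, ?_⟩
    rw [hj]
    refine hlim.congr fun n => ?_
    rw [← ha1, hj]
  obtain ⟨hPP, hJC⟩ := yb_core j d hinj hK
  refine ⟨(L1.{u} ⧸ LinearMap.ker (q : L1.{u} →ₗ[ℝ] E)), Submodule.Quotient.normedAddCommGroup _,
    inferInstance, yM j d, j, fun n => (LinearMap.ker (q : L1.{u} →ₗ[ℝ] E)).mkQ
      (lp.single 1 (ULift.up n) (r n)), inferInstance, yM_anti j d, hPP, hJC, ?_, ?_, ?_⟩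
  · refine squeeze_zero_norm (fun n => ?_) hrt
    refine (Submodule.Quotient.norm_mk_le _ _).trans ?_
    rw [lp.norm_single one_pos, Real.norm_of_nonneg (hr0 n).le]
  · intro n
    rw [hj, hq, tsum_eq_single (ULift.up n)]
    · rw [lp.single_apply_self]
      exact hrz n
    · intro i hi
      rw [lp.single_apply_ne _ _ _ hi, zero_smul]
  · rintro T ⟨m, hT⟩
    exact yM_fac j d m T hT

end Pool.Agent.Helper17.BQ
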