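import Pool.Agent.Helper31.BQ.Stmts3

set_option autoImplicit false

namespace Pool.Agent.Helper17.BQ

open Filter Topology
open Pool.Agent.Helper31.BQ

universe u

section

variable {Y E : Type u} [NormedAddCommGroup Y] [NormedSpace ℝ Y] [NormedAddCommGroup E]
  [NormedSpace ℝ E] (j : Y →L[ℝ] E) (d : ℕ → E →L[ℝ] ℝ)

/-- the first `n` functionals -/
noncomputable def yF (n : ℕ) : Y →L[ℝ] (Fin n → ℝ) :=
  ContinuousLinearMap.pi fun i : Fin n => (d i).comp j

theorem yF_apply (n : ℕ) (y : Y) (i : Fin n) : yF j d n y i = d i (j y) := rfl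

/-- the subspaces -/
noncomputable def yM (n : ℕ) : Submodule ℝ Y := LinearMap.ker (yF j d n : Y →ₗ[ℝ] (Fin n → ℝ))

theorem yM_mem (n : ℕ) (y : Y) : y ∈ yM j d n ↔ ∀ i < n, d i (j y) = 0 := by
  unfold yM
  rw [LinearMap.mem_ker]
  constructor
  · intro h i hi
    exact congrFun h ⟨i, hi⟩
  · intro h
    funext i
    exact h i i.2

theorem yM_anti : Antitone (yM j d) := by
  intro a b hab y hy
  rw [yM_mem] at hy ⊢
  exact fun i hi => hy i (by omega)

theorem yM_closed (n : ℕ) : IsClosed (yM j d n : Set Y) :=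
  ContinuousLinearMap.isClosed_ker (yF j d n)

theorem yM_fd (n : ℕ) : FiniteDimensional ℝ (Y ⧸ yM j d n) :=
  (LinearMap.quotKerEquivRange (yF j d n : Y →ₗ[ℝ] (Fin n → ℝ))).symm.finiteDimensional

theorem yM_tend (n : ℕ) {x : ℕ → Y} {y : Y} :
    Tendsto (fun k => (yM j d n).mkQ (x k)) atTop (𝓝 ((yM j d n).mkQ y)) ↔
      ∀ i < n, Tendsto (fun k => d i (j (x k))) atTop (𝓝 (d i (j y))) := by
  have h1 := yM_closed j d n
  have h2 := yM_fd j d n
  have h3 : T2Space (Y ⧸ yM j d n) := by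
    have : IsClosed (yM j d n : Set Y) := h1
    infer_instance
  have h4 : LinearMap.ker ((yM j d n).liftQ (yF j d n : Y →ₗ[ℝ] (Fin n → ℝ)) le_rfl) = ⊥ :=
    Submodule.ker_liftQ_eq_bot _ _ _ le_rfl
  have h5 := LinearMap.isClosedEmbedding_of_injective h4
  rw [h5.isEmbedding.tendsto_nhds_iff, tendsto_pi_nhds]
  constructor
  · intro h i hi
    exact h ⟨i, hi⟩
  · intro h i
    exact h i i.2

/-- operators that vanish on `yM n` factor -/
theorem yM_fac (n : ℕ) (T : Y →L[ℝ] E) (hT : ∀ y ∈ yM j d n, T y = 0) :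
    ∃ T' ∈ FR E, ∀ z, T z = T' (j z) := by
  obtain ⟨L0, hL0⟩ : ∃ L0 : (Y ⧸ yM j d n) →ₗ[ℝ] E, ∀ y, L0 ((yM j d n).mkQ y) = T y :=
    ⟨(yM j d n).liftQ (T : Y →ₗ[ℝ] E) (fun y hy => hT y hy), fun y => rfl⟩
  have hk : LinearMap.ker ((yM j d n).liftQ (yF j d n : Y →ₗ[ℝ] (Fin n → ℝ)) le_rfl) = ⊥ :=
    Submodule.ker_liftQ_eq_bot _ _ _ le_rfl
  obtain ⟨g, hg⟩ := LinearMap.exists_leftInverse_of_injective _ hk
  have hcont : Continuous (L0.comp g) := LinearMap.continuous_of_finiteDimensional _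
  refine ⟨(⟨L0.comp g, hcont⟩ : (Fin n → ℝ) →L[ℝ] E).comp
    (ContinuousLinearMap.pi fun i : Fin n => d i), ?_, fun z => ?_⟩
  · show FiniteDimensional ℝ (LinearMap.range _)
    have hle : LinearMap.range (((⟨L0.comp g, hcont⟩ : (Fin n → ℝ) →L[ℝ] E).comp
      (ContinuousLinearMap.pi fun i : Fin n => d i) : E →L[ℝ] E) : E →ₗ[ℝ] E) ≤
        LinearMap.range (L0.comp g) := by
      rintro _ ⟨z, rfl⟩
      exact ⟨_, rfl⟩
    have : FiniteDimensional ℝ (LinearMap.range (L0.comp g)) := inferInstance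
    exact Submodule.finiteDimensional_of_le hle
  · have e1 : g (yF j d n z) = (yM j d n).mkQ z := by
      have := LinearMap.congr_fun hg ((yM j d n).mkQ z)
      exact this
    show T z = L0 (g (yF j d n z))
    rw [e1, hL0]

theorem yb_core (hj : ∀ y, (∀ i, d i (j y) = 0) → y = 0)
    (hK : ∀ (x : ℕ → Y) (C : ℝ), (∀ n, ‖x n‖ ≤ C) → ∃ (φ : ℕ → ℕ) (y : Y), StrictMono φ ∧
      ‖y‖ ≤ C ∧ Tendsto (fun n => j (x (φ n))) atTop (𝓝 (j y))) :
    PP Y (yM j d) ∧ JC (yM j d) j := by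
  have hinj : ∀ y y' : Y, (∀ i, d i (j y) = d i (j y')) → y = y' := by
    intro y y' h
    rw [← sub_eq_zero]
    apply hj
    intro i
    rw [map_sub, map_sub, h i, sub_self]
  refine ⟨⟨yM_closed j d, yM_fd j d, ?_, ?_⟩, ?_⟩
  · intro x ε hε
    by_contra hcon
    push Not at hcon
    choose y hy1 hy2 using hcon
    obtain ⟨φ, z, hφ, hz, hlim⟩ := hK y (‖x‖ - ε) (fun n => (hy2 n).le)
    have hzx : z = x := by
      apply hinj
      intro i
      have h1 : Tendsto (fun n => d i (j (y (φ n)))) atTop (𝓝 (d i (j z))) :=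
        ((d i).continuous.tendsto _).comp hlim
      have h2 : Tendsto (fun n => d i (j (y (φ n)))) atTop (𝓝 (d i (j x))) := by
        refine tendsto_const_nhds.congr' ?_
        filter_upwards [eventually_gt_atTop i] with n hn
        have h3 := (yM_mem j d (φ n) _).1 (hy1 (φ n)) i (lt_of_lt_of_le hn (hφ.id_le n))
        rw [map_sub, map_sub, sub_eq_zero] at h3
        exact h3
      exact tendsto_nhds_unique h1 h2
    rw [hzx] at hz
    linarith
  · intro x C hx hv
    obtain ⟨φ, z, hφ, -, hlim⟩ := hK x C hx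
    refine ⟨z, fun m => ?_⟩
    obtain ⟨v, hv'⟩ := hv m
    have h1 : Tendsto (fun k => (yM j d m).mkQ (x (φ k))) atTop (𝓝 ((yM j d m).mkQ z)) := by
      rw [yM_tend]
      exact fun i _ => ((d i).continuous.tendsto _).comp hlim
    have h2 : Tendsto (fun k => (yM j d m).mkQ (x (φ k))) atTop (𝓝 v) :=
      hv'.comp hφ.tendsto_atTop
    have h3 : T2Space (Y ⧸ yM j d m) := by
      have : IsClosed (yM j d m : Set Y) := yM_closed j d m
      infer_instance
    rw [tendsto_nhds_unique h1 h2]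
    exact hv'
  · intro x C y hx hv
    refine tendsto_of_subseq_tendsto fun ns hns => ?_
    obtain ⟨φ, z, hφ, -, hlim⟩ := hK (fun n => x (ns n)) C (fun n => hx _)
    refine ⟨φ, ?_⟩
    have hzy : z = y := by
      apply hinj
      intro i
      have h1 : Tendsto (fun n => d i (j (x (ns (φ n))))) atTop (𝓝 (d i (j z))) :=
        ((d i).continuous.tendsto _).comp hlim
      have h2 : Tendsto (fun n => d i (j (x n))) atTop (𝓝 (d i (j y))) :=
        (yM_tend j d (i + 1)).1 (hv (i + 1)) i (by omega)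
      exact tendsto_nhds_unique h1 (h2.comp (hns.comp hφ.tendsto_atTop))
    rw [hzy] at hlim
    exact hlim

end

end Pool.Agent.Helper17.BQ
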